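import Mathlib
import Pool.Agent.N661.BR.Defs

/-! MP_6b977f_mp, project WK: true weak convergence of the local measures on the space of continuous
functions with the topology of uniform convergence on bounded sets: definitions and statements. -/

set_option autoImplicit false
set_option maxHeartbeats 400000
open MeasureTheory Filter Topology Complex

namespace Pool.Agent.L0h77.WK

open Pool.Agent.N661.BR (MW lin)

noncomputable section

/-- a continuous function as an element of `C(ℂ, ℝ)` with the compact-open topology (uniform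
convergence on bounded sets); the value for discontinuous functions is irrelevant -/
def toC (g : ℂ → ℝ) : C(ℂ, ℝ) := by
  classical exact if h : Continuous g then ⟨g, h⟩ else 0

/-- bounds for the values and the Lipschitz constants on the balls of radius `R = 0, 1, ...` -/
def LipBd (M : ℕ → ℝ) (g : ℂ → ℝ) : Prop :=
  ∀ (R : ℕ) (w w' : ℂ), ‖w‖ ≤ R → ‖w'‖ ≤ R → |g w| ≤ M R ∧ |g w - g w'| ≤ M R * ‖w - w'‖

/-- CPT (Arzela-Ascoli: `ArzelaAscoli.isCompact_of_equicontinuous`; the set of the underlying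
functions is closed in the product and contained in a product of compact intervals) -/
def S_CPT : Prop := ∀ M : ℕ → ℝ, IsCompact {f : C(ℂ, ℝ) | LipBd M f}

/-- MSR (measurability into `C(ℂ, ℝ)` can be tested on evaluations: `ContinuousMap.compactOpen_eq`,
`borel_eq_generateFrom_of_subbasis`, second countability of `C(ℂ, ℝ)`; for `K` compact with a
countable dense subset `D` and `U` open, `U ≠ univ`, the function `f` maps `K` into `U` if and only
if for some `m` the distance of `f q` to the complement of `U` is at least `1 / (m + 1)` for all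
`q ∈ D`) -/
def S_MSR : Prop := ∀ (Z : Type) [MeasurableSpace Z] (F : Z → C(ℂ, ℝ)),
  (∀ w, Measurable fun z => F z w) → @Measurable Z C(ℂ, ℝ) _ (borel C(ℂ, ℝ)) F

/-- WOC (from CPT, MSR: `theorem WOC (h1 : S_CPT) (h2 : S_MSR) : S_WOC`). Put the Borel σ-algebra on
`C(ℂ, ℝ)`; it is a Polish space. Apply `ProbabilityMeasure.tendsto_of_tight_of_separatesPoints` with
`𝕜 = ℂ` to the images of the normalised restriction of `volume` to `U` under `z ↦ F n z` and to the
image of `μ` under `f ↦ toC f`, and with the star subalgebra `charPoly` for the pairing of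
`C(ℂ, ℝ)` with `ℂ →₀ ℝ` (discrete topology), or any star subalgebra of trigonometric polynomials in
evaluations. Finally `ProbabilityMeasure.tendsto_iff_forall_integral_tendsto` and `integral_map`. -/
def S_WOC : Prop := ∀ (U : Set ℂ), MeasurableSet U → volume U ≠ 0 → volume U ≠ ⊤ →
  ∀ (F : ℕ → ℂ → C(ℂ, ℝ)), (∀ n w, Measurable fun z => F n z w) →
  (∀ η : ℝ, 0 < η → ∃ M : ℕ → ℝ, ∀ n, volume {z ∈ U | ¬ LipBd M (F n z)} ≤ ENNReal.ofReal η) →
  ∀ μ : Measure MW, IsProbabilityMeasure μ →
  (∀ (k : ℕ) (w : Fin k → ℂ) (t : Fin k → ℝ),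
    Tendsto (fun n => (1 / volume.real U : ℝ) * ∫ z in U,
      Complex.exp (I * ((∑ j, t j * F n z (w j) : ℝ) : ℂ))) atTop
      (𝓝 (∫ f, Complex.exp (I * (lin w t f : ℝ)) ∂μ))) →
  ∀ Φ : C(ℂ, ℝ) → ℝ, Continuous Φ → (∃ C : ℝ, ∀ f, |Φ f| ≤ C) →
    Tendsto (fun n => (1 / volume.real U : ℝ) * ∫ z in U, Φ (F n z)) atTop
      (𝓝 (∫ f, Φ (toC f.1) ∂μ))

/-- SOB (calculus: three times the fundamental theorem of calculus) -/
def S_SOB : Prop := ∀ (f : ℂ → ℝ) (f1 f2 f12 : ℂ → ℝ), Continuous f1 → Continuous f2 →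
  Continuous f12 → (∀ z, HasDerivAt (fun s : ℝ => f (z + s)) (f1 z) 0) →
  (∀ z, HasDerivAt (fun s : ℝ => f (z + s * I)) (f2 z) 0) →
  (∀ z, HasDerivAt (fun s : ℝ => f1 (z + s * I)) (f12 z) 0) →
  ∀ R : ℝ, 0 ≤ R → ∀ w : ℂ, ‖w‖ ≤ R →
    |f w| ≤ |f 0| + (∫ t in (-R)..R, |f2 (t * I)|) + (∫ s in (-R)..R, |f1 s|) +
      ∫ s in (-R)..R, ∫ t in (-R)..R, |f12 (s + t * I)|

end

end Pool.Agent.L0h77.WK
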