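import Mathlib
import Pool.Agent.N661.BR.Defs

/-! MP_6b977f_mp, project WK: existence of the isotropic random wave -/

set_option autoImplicit false
set_option maxHeartbeats 400000
open MeasureTheory Filter Topology Complex

namespace Pool.Agent.L0h77.WK

open Pool.Agent.N661.BR (MW IsRandomWave)

/-- EXR: existence of the law of the isotropic random wave.

Sketch. For `n : ℤ` put `h n x = (1 / 2π) ∫_0^{2π} exp (i (x₁ cos α + x₂ sin α)) exp (-i n α) dα`, a smooth
complex function with `Δ h + h = 0`; all its partial derivatives of order `j` are bounded by
`|x|^(n-j) exp |x| / (n-j)!` in absolute value, since the powers `(x · θ)^k`, `k < |n|`, are orthogonal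
to `exp (i n α)`. By Parseval `∑ h n x * conj (h n y) = (1 / 2π) ∫ exp (i (x - y) · θ) = J0 |x - y|`. Let
`ξ n` be independent standard normal variables (two families, for the real and imaginary parts; or use
`cos (n α)`, `sin (n α)` instead of `exp (-i n α)` and real parts: `h` is real for even and imaginary
for odd `n`). Almost surely `|ξ n| ≤ n + C`, so the random function `Ψ x = ∑ ξ n * g n x`, `g n` the
corresponding real functions, is smooth with `Δ Ψ + Ψ = 0` (`contDiff_tsum` on balls, or Fourier
series of the random distribution), and its finite linear combinations of values are limits in
`L²` of centred normal variables with variances converging to `∑ t i t j J0 |w i - w j|`. The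
exceptional null set is mapped to the zero function. Any other construction is welcome (for example
the limit of trigonometric sums with Gaussian coefficients, or a Prokhorov argument). -/
def S_EXR : Prop := ∃ μ : Measure MW, IsProbabilityMeasure μ ∧ IsRandomWave μ

end Pool.Agent.L0h77.WK
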