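import Pool.Agent.L0h77.WK.Stm2
import Pool.Agent.L0h77.WK.Stm3
import Pool.Agent.L0h4.WK.WOC
import Pool.Agent.L0h77.BW.Main
import Pool.Agent.L0h77.BW.Gen4

/-! MP_6b977f_mp, project WK: weak convergence of the local measures -/

set_option autoImplicit false
set_option maxHeartbeats 400000
open MeasureTheory Filter Topology Complex

namespace Pool.Agent.L0h77.WK

open Pool.Agent.L0h56.BQ
open Pool.Agent.L0h77.BW
open Pool.Agent.N661.BR (MW lin J0 resc IsCutoff IsRandomWave)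
open APXh

noncomputable section

/-- weak convergence of the local measures `m_n = |Ω'|⁻¹ ∫_{Ω'} δ_{ũ_z} dz` of all nonempty open subsets
`Ω'` of `Ω` to the law of the random wave, as measures on the space `C(ℂ, ℝ)` of continuous
functions with the topology of uniform convergence on bounded sets: the integrals of every bounded
continuous functional `Φ : C(ℂ, ℝ) → ℝ` converge. (`ũ_z = resc χ Ω (lam n) (u n) z` is continuous, if
`u n` is continuous, and `toC g` is then the element of `C(ℂ, ℝ)` with underlying function `g`.) -/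
def WeakLimit (Ω : Set ℂ) (lam : ℕ → ℝ) (u : ℕ → ℂ → ℝ) : Prop :=
  ∀ χ : ℝ → ℝ, IsCutoff χ → ∀ μ : Measure MW, IsProbabilityMeasure μ → IsRandomWave μ →
    ∀ Ω' ⊆ Ω, IsOpen Ω' → Ω'.Nonempty →
    ∀ Φ : C(ℂ, ℝ) → ℝ, Continuous Φ → (∃ C : ℝ, ∀ f, |Φ f| ≤ C) →
      Tendsto (fun n => (1 / volume.real Ω' : ℝ) * ∫ z in Ω', Φ (toC (resc χ Ω (lam n) (u n) z)))
        atTop (𝓝 (∫ f, Φ (toC f.1) ∂μ))

theorem cut_cont {χ : ℝ → ℝ} (hχ : IsCutoff χ) : Continuous fun s : ℝ => χ (max s 0) :=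
  hχ.smooth.continuousOn.comp_continuous (by fun_prop) fun s => Set.mem_Ici.2 (le_max_right _ _)

theorem resc_eq (χ : ℝ → ℝ) (Ω : Set ℂ) (lam : ℝ) (u : ℂ → ℝ) (z w : ℂ) : resc χ Ω lam u z w =
    u (z + w / (√lam : ℝ)) * χ (max (‖w‖ / (√lam * Metric.infDist z (frontier Ω))) 0) := by
  unfold resc
  rw [max_eq_left]
  exact div_nonneg (norm_nonneg _) (mul_nonneg (Real.sqrt_nonneg _) Metric.infDist_nonneg)

theorem resc_cont {χ : ℝ → ℝ} (hχ : IsCutoff χ) (Ω : Set ℂ) (lam : ℝ) {u : ℂ → ℝ}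
    (hu : Continuous u) (z : ℂ) : Continuous (resc χ Ω lam u z) := by
  have h1 : resc χ Ω lam u z = fun w =>
      u (z + w / (√lam : ℝ)) * χ (max (‖w‖ / (√lam * Metric.infDist z (frontier Ω))) 0) :=
    funext fun w => resc_eq χ Ω lam u z w
  rw [h1]
  refine Continuous.mul (hu.comp (continuous_const.add (continuous_id.div_const _))) ?_
  exact (cut_cont hχ).comp (continuous_norm.div_const _)

theorem resc_meas {χ : ℝ → ℝ} (hχ : IsCutoff χ) (Ω : Set ℂ) (lam : ℝ) {u : ℂ → ℝ}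
    (hu : Continuous u) (w : ℂ) : Measurable fun z => resc χ Ω lam u z w := by
  have h1 : (fun z => resc χ Ω lam u z w) = fun z =>
      u (z + w / (√lam : ℝ)) * χ (max (‖w‖ / (√lam * Metric.infDist z (frontier Ω))) 0) :=
    funext fun z => resc_eq χ Ω lam u z w
  rw [h1]
  refine Measurable.mul ?_ ?_
  · exact Continuous.measurable (by fun_prop)
  · refine (cut_cont hχ).measurable.comp ?_
    refine measurable_const.div ?_
    exact measurable_const.mul (Metric.continuous_infDist_pt _).measurable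

theorem crep_cont {e : ℕ} {c : GI → ℂ} {u : ℂ → ℝ} (h : CRep e c u) : Continuous u := by
  have h1 : u = fun z => (∑ ν ∈ V e, c ν * ch ν z).re := by
    funext z
    rw [← h.eq z, Complex.ofReal_re]
  rw [h1]
  exact Complex.continuous_re.comp (cont_tp _ _)

theorem weak_of (h1 : S_WOC) (h2 : S_TGT) {E : ℕ → ℕ} {c : ℕ → GI → ℂ} {u : ℕ → ℂ → ℝ}
    {Ω : Set ℂ} (hop : IsOpen Ω) (hb : Bornology.IsBounded Ω) {A : ℝ}
    (hr : ∀ᶠ n in atTop, 0 < E n ∧ CRep (E n) (c n) (u n) ∧ ∑ ν ∈ V (E n), ‖c n ν‖ ^ 2 ≤ A)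
    (hL : HasRandomWaveLimit Ω (fun n => lamE (E n)) u) :
    WeakLimit Ω (fun n => lamE (E n)) u := by
  intro χ hχ μ hμ hrw Ω' hsub ho hne Φ hΦ hC
  obtain ⟨n0, hn0⟩ := eventually_atTop.1 hr
  have hn : ∀ n, 0 < E (n + n0) ∧ CRep (E (n + n0)) (c (n + n0)) (u (n + n0)) ∧
      ∑ ν ∈ V (E (n + n0)), ‖c (n + n0) ν‖ ^ 2 ≤ A := fun n => hn0 _ (Nat.le_add_left _ _)
  rw [← tendsto_add_atTop_iff_nat n0]
  have hc : ∀ n z, Continuous (resc χ Ω (lamE (E (n + n0))) (u (n + n0)) z) := fun n z =>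
    resc_cont hχ Ω _ (crep_cont (hn n).2.1) z
  have ha : ∀ n z, ⇑(toC (resc χ Ω (lamE (E (n + n0))) (u (n + n0)) z)) =
      resc χ Ω (lamE (E (n + n0))) (u (n + n0)) z := fun n z =>
    funext fun w => Pool.Agent.L0h4.WK.toC_apply (hc n z) w
  refine h1 Ω' ho.measurableSet (ho.measure_pos _ hne).ne' (hb.subset hsub).measure_lt_top.ne
    (fun n z => toC (resc χ Ω (lamE (E (n + n0))) (u (n + n0)) z)) (fun n w => ?_)
    (fun η hη => ?_) μ hμ (fun k w t => ?_) Φ hΦ hC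
  · simp only [ha]
    exact resc_meas hχ Ω _ (crep_cont (hn n).2.1) w
  · obtain ⟨M, hM⟩ := h2 χ hχ Ω Ω' hop hb ho.measurableSet hsub hne A η hη
    refine ⟨M, fun n => ?_⟩
    simp only [ha]
    exact hM _ _ _ (hn n).1 (hn n).2.1 (hn n).2.2
  · simp only [ha]
    have h3 := (randomWave_iff μ).1 hrw k w t
    rw [h3]
    exact (tendsto_add_atTop_iff_nat n0).2 ((hL.2 Ω' hsub ho hne k w t).1 χ hχ)

/-- the norms are bounded -/
theorem norm_bd {Ω : Set ℂ} {lam : ℕ → ℝ} {u : ℕ → ℂ → ℝ} (ho : IsOpen Ω)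
    (hb : Bornology.IsBounded Ω) (hne : Ω.Nonempty)
    (hL : HasRandomWaveLimit Ω lam u) : ∃ A : ℝ, ∀ᶠ n in atTop, ∫ z in Ω, u n z ^ 2 ≤ A := by
  have h1 := (hL.2 Ω subset_rfl ho hne 1 (fun _ => 0) (fun _ => 1)).2 2
  simp only [Finset.univ_unique, Finset.sum_singleton, zero_div, add_zero, one_mul] at h1
  obtain ⟨B, hB⟩ : ∃ B : ℝ, Tendsto (fun n => (1 / volume.real Ω : ℝ) * ∫ z in Ω, u n z ^ 2) atTop
      (𝓝 B) := ⟨_, h1⟩
  have hv : 0 < volume.real Ω :=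
    ENNReal.toReal_pos (ho.measure_pos _ hne).ne' hb.measure_lt_top.ne
  refine ⟨volume.real Ω * (B + 1), (hB.eventually (gt_mem_nhds (lt_add_one B))).mono fun n hn => ?_⟩
  have h2 : ∫ z in Ω, u n z ^ 2 = volume.real Ω * ((1 / volume.real Ω : ℝ) * ∫ z in Ω, u n z ^ 2) := by
    field_simp
  rw [h2]
  exact mul_le_mul_of_nonneg_left hn.le hv.le

theorem weak_tor (h1 : S_WOC) (h2 : S_TGT) {E : ℕ → ℕ} (hE : ∀ n, 0 < E n) {u : ℕ → ℂ → ℝ}
    (hu : ∀ n, u n ∈ TorE (E n))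
    (hL : ∀ Ω : Set ℂ, IsOpen Ω → Bornology.IsBounded Ω → Ω.Nonempty →
      HasRandomWaveLimit Ω (fun n => lamE (E n)) u)
    {Ω : Set ℂ} (hop : IsOpen Ω) (hb : Bornology.IsBounded Ω) (hne : Ω.Nonempty) :
    WeakLimit Ω (fun n => lamE (E n)) u := by
  choose c hc using fun n => TorE_rep (hu n)
  have hcell : ∃ R : ℝ, 0 < R ∧ cell 2 ⊆ Metric.ball 0 R := by
    refine ⟨5, by norm_num, fun z hz => ?_⟩
    rw [mem_ball_zero_iff]
    obtain ⟨⟨a1, a2⟩, b1, b2⟩ := hz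
    refine lt_of_le_of_lt (Complex.norm_le_abs_re_add_abs_im z) ?_
    rw [abs_of_pos a1, abs_of_pos b1]
    linarith
  obtain ⟨R, hR, hcR⟩ := hcell
  obtain ⟨A, hA⟩ := norm_bd Metric.isOpen_ball Metric.isBounded_ball ⟨0, Metric.mem_ball_self hR⟩
    (hL (Metric.ball 0 R) Metric.isOpen_ball Metric.isBounded_ball ⟨0, Metric.mem_ball_self hR⟩)
  refine weak_of h1 h2 (c := c) (A := A / 4) hop hb ?_ (hL Ω hop hb hne)
  refine hA.mono fun n hn => ⟨hE n, hc n, ?_⟩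
  have h3 := parseval (V (E n)) (c n)
  have h4 : ∀ z, ‖∑ ν ∈ V (E n), c n ν * ch ν z‖ ^ 2 = u n z ^ 2 := fun z => by
    rw [← (hc n).eq z, Complex.norm_real, Real.norm_eq_abs, sq_abs]
  simp only [h4] at h3
  have h5 : ∫ z in cell 2, u n z ^ 2 ≤ ∫ z in Metric.ball 0 R, u n z ^ 2 := by
    refine setIntegral_mono_set ?_ (Eventually.of_forall fun z => sq_nonneg _)
      (Eventually.of_forall hcR)
    exact ((crep_cont (hc n)).pow 2).continuousOn.integrableOn_compact (isCompact_closedBall 0 R) |>.mono_set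
      Metric.ball_subset_closedBall
  linarith

theorem weak_poly (h1 : S_WOC) (h2 : S_TGT) {E : ℕ → ℕ} (hE : ∀ᶠ n in atTop, 0 < E n)
    {u : ℕ → ℂ → ℝ}
    {F : ℕ → Submodule ℝ (ℂ → ℝ)} (hF : F = DirE ∨ F = NeuE) (hu : ∀ n, u n ∈ F (E n))
    {Ω : Set ℂ} (hΩ : IsPoly Ω) (hne : Ω.Nonempty)
    (hL : HasRandomWaveLimit Ω (fun n => lamE (E n)) u) :
    WeakLimit Ω (fun n => lamE (E n)) u := by
  obtain ⟨σ, hσ, b, hb⟩ : ∃ σ : ℝ, σ * σ = 1 ∧ ∃ b : ℕ → GI → ℝ, ∀ n, Rep σ (E n) (b n) (u n) := by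
    rcases hF with hF | hF
    · subst hF
      choose b hb using fun n => DirE_rep (hu n)
      exact ⟨-1, by norm_num, b, hb⟩
    · subst hF
      choose b hb using fun n => NeuE_rep (hu n)
      exact ⟨1, by norm_num, b, hb⟩
  obtain ⟨A, hA⟩ := norm_bd hΩ.op hΩ.bd hne hL
  refine weak_of h1 h2 (c := fun n ν => (b n ν : ℂ)) (A := A / volume.real Ω) hΩ.op hΩ.bd ?_ hL
  refine (hA.and hE).mono fun n ⟨hn, hEn⟩ => ⟨hEn, ⟨fun ν => ?_, (hb n).eq⟩, ?_⟩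
  · rw [(hb n).neg, Complex.conj_ofReal]
  · have h3 := sq_int hσ hb hΩ n
    rw [h3] at hn
    rw [le_div_iff₀ (hΩ.vol_pos hne)]
    have h4 : ∑ ν ∈ V (E n), ‖(b n ν : ℂ)‖ ^ 2 = ∑ ν ∈ V (E n), b n ν ^ 2 :=
      Finset.sum_congr rfl fun ν _ => by rw [Complex.norm_real, Real.norm_eq_abs, sq_abs]
    rw [h4]
    linarith

theorem onb_weak (h1 : S_WOC) (h2 : S_TGT) {F : ℕ → Submodule ℝ (ℂ → ℝ)}
    (hF : F = DirE ∨ F = NeuE) {E : ℕ → ℕ} {u : ℕ → ℂ → ℝ} (hB : IsONB F E u) {m : ℕ → ℕ}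
    (hm : FullDensity m)
    (hw : HasRandomWaveLimit Sq (fun i => lamE (E (m i))) (fun i => u (m i))) :
    WeakLimit Sq (fun i => lamE (E (m i))) (fun i => u (m i)) := by
  have hb := ONB1 F hF E u hB
  exact weak_poly h1 h2 ((hb.top.comp hm.1.tendsto_atTop).eventually_gt_atTop 0) hF
    (fun i => hb.mem (m i)) Sq_poly Sq_ne hw

end

end Pool.Agent.L0h77.WK
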