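import Pool.Agent.L0h77.WK.Stm2

/-! # Project WK, module PB: bounds for the values and the Lipschitz constant on balls -/

set_option autoImplicit false
open MeasureTheory Filter Topology Complex

namespace Pool.Agent.L0h77.WK.PBm

open Pool.Agent.L0h56.BQ
open Pool.Agent.L0h77.BW
open Pool.Agent.L0h77.WK
open APXh

theorem re_deriv (e : ℕ) (c : GI → ℂ) (z w v : ℂ) (t : ℝ) :
    HasDerivAt (fun t : ℝ => (T e c z (w + t * v)).re)
      (v.re * (T e (c1 e c) z (w + t * v)).re + v.im * (T e (c2 e c) z (w + t * v)).re) t := by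
  have h := Complex.reCLM.hasFDerivAt.comp_hasDerivAt t (T_deriv e c z w v t)
  have e1 : Complex.reCLM (v.re * T e (c1 e c) z (w + t * v) + v.im * T e (c2 e c) z (w + t * v)) =
      v.re * (T e (c1 e c) z (w + t * v)).re + v.im * (T e (c2 e c) z (w + t * v)).re := by
    rw [Complex.reCLM_apply, Complex.add_re, Complex.re_ofReal_mul, Complex.re_ofReal_mul]
  rw [e1] at h
  exact h

theorem re_cont (e : ℕ) (c : GI → ℂ) (z : ℂ) : Continuous fun w : ℂ => (T e c z w).re := by
  have h := (T_cont e c).comp (Continuous.prodMk_right z)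
  exact Complex.continuous_re.comp h

theorem re_d1 (e : ℕ) (c : GI → ℂ) (z w : ℂ) :
    HasDerivAt (fun s : ℝ => (T e c z (w + s)).re) (T e (c1 e c) z w).re 0 := by
  have h := re_deriv e c z w 1 0
  simp only [Complex.one_re, Complex.one_im, Complex.ofReal_zero, zero_mul, add_zero, one_mul, mul_one] at h
  exact h

theorem re_d2 (e : ℕ) (c : GI → ℂ) (z w : ℂ) :
    HasDerivAt (fun s : ℝ => (T e c z (w + s * I)).re) (T e (c2 e c) z w).re 0 := by
  have h := re_deriv e c z w I 0
  simp only [Complex.I_re, Complex.I_im, Complex.ofReal_zero, zero_mul, add_zero, one_mul, zero_add] at h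
  exact h

/-- module PB: bounds for the values and the Lipschitz constant on balls -/
theorem PB (h : S_SOB) : Pool.Agent.L0h77.WK.S_PB := by
  have key : ∀ (e : ℕ) (c : GI → ℂ) (R : ℝ) (z w : ℂ), 0 ≤ R → ‖w‖ ≤ R → |(T e c z w).re| ≤ SS e c R z := by
    intro e c R z w hR hw
    have h1 := h (fun w => (T e c z w).re) (fun w => (T e (c1 e c) z w).re) (fun w => (T e (c2 e c) z w).re)
      (fun w => (T e (c2 e (c1 e c)) z w).re) (re_cont _ _ _) (re_cont _ _ _) (re_cont _ _ _)
      (fun w => re_d1 e c z w) (fun w => re_d2 e c z w) (fun w => re_d2 e (c1 e c) z w) R hR w hw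
    exact h1
  intro e c R z w w' hR hw hw'
  refine ⟨key e c R z w hR hw, ?_⟩
  obtain ⟨v, hv⟩ : ∃ v, v = w - w' := ⟨_, rfl⟩
  have hb : ∀ t ∈ Set.Icc (0 : ℝ) 1, ‖w' + t * v‖ ≤ R := by
    intro t ht
    have e1 : w' + t * v = ((1 - t : ℝ) : ℂ) * w' + (t : ℂ) * w := by
      rw [hv]
      push_cast
      ring
    rw [e1]
    refine (norm_add_le _ _).trans ?_
    rw [norm_mul, norm_mul, Complex.norm_real, Complex.norm_real, Real.norm_eq_abs, Real.norm_eq_abs,
      abs_of_nonneg ht.1, abs_of_nonneg (sub_nonneg.2 ht.2)]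
    have h1 := mul_le_mul_of_nonneg_left hw' (sub_nonneg.2 ht.2)
    have h2 := mul_le_mul_of_nonneg_left hw ht.1
    linarith
  have hS : ∀ c' : GI → ℂ, ∀ t ∈ Set.Icc (0 : ℝ) 1, |(T e c' z (w' + t * v)).re| ≤ SS e c' R z :=
    fun c' t ht => key e c' R z _ hR (hb t ht)
  have h0 : ∀ c' : GI → ℂ, 0 ≤ SS e c' R z := fun c' => (abs_nonneg _).trans (key e c' R z w hR hw)
  have hm := norm_image_sub_le_of_norm_deriv_le_segment_01' (f := fun t : ℝ => (T e c z (w' + t * v)).re)
    (f' := fun t => v.re * (T e (c1 e c) z (w' + t * v)).re + v.im * (T e (c2 e c) z (w' + t * v)).re)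
    (C := (SS e (c1 e c) R z + SS e (c2 e c) R z) * ‖v‖)
    (fun t _ => (re_deriv e c z w' v t).hasDerivWithinAt) (fun t ht => ?_)
  · have e2 : w' + ((1 : ℝ) : ℂ) * v = w := by
      rw [hv]
      push_cast
      ring
    have e3 : w' + ((0 : ℝ) : ℂ) * v = w' := by
      push_cast
      ring
    simp only [e2, e3, Real.norm_eq_abs] at hm
    rw [← hv]
    exact hm
  · have ht' : t ∈ Set.Icc (0 : ℝ) 1 := ⟨ht.1, ht.2.le⟩
    rw [Real.norm_eq_abs]
    refine (abs_add_le _ _).trans ?_
    rw [abs_mul, abs_mul, add_mul]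
    apply add_le_add
    · rw [mul_comm]
      exact mul_le_mul (hS _ t ht') (Complex.abs_re_le_norm v) (abs_nonneg _) (h0 _)
    · rw [mul_comm]
      exact mul_le_mul (hS _ t ht') (Complex.abs_im_le_norm v) (abs_nonneg _) (h0 _)

end Pool.Agent.L0h77.WK.PBm
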