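import Pool.Agent.L0h77.WK.Stm2

/-! MP_6b977f_mp, project WK: the mean of `SS` over a bounded set -/

set_option autoImplicit false
set_option maxHeartbeats 400000
open MeasureTheory Filter Topology Complex

namespace Pool.Agent.L0h77.WK

open Pool.Agent.L0h56.BQ
open Pool.Agent.L0h77.BW

namespace XBm

theorem swapBd {U : Set ℂ} (hb : Bornology.IsBounded U) (G : ℂ → ℝ → ℝ)
    (hG : Continuous (Function.uncurry G)) (R B : ℝ) (hR : 0 ≤ R)
    (h : ∀ t, ∫ z in U, G z t ≤ B) : ∫ z in U, (∫ t in (-R)..R, G z t) ≤ 2 * R * B := by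
  obtain ⟨r, hr⟩ := hb.subset_closedBall 0
  have hRR : -R ≤ R := by linarith
  have hint : Integrable (Function.uncurry G)
      ((volume.restrict U).prod (volume.restrict (Set.Ioc (-R) R))) := by
    rw [Measure.prod_restrict]
    refine (hG.continuousOn.integrableOn_compact
      ((isCompact_closedBall (0 : ℂ) r).prod (isCompact_Icc (a := -R) (b := R)))).mono_set ?_
    exact Set.prod_mono hr Set.Ioc_subset_Icc_self
  simp_rw [intervalIntegral.integral_of_le hRR]
  rw [integral_integral_swap hint]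
  have h1 : Integrable (fun t => ∫ z in U, G z t) (volume.restrict (Set.Ioc (-R) R)) :=
    hint.integral_prod_right
  calc ∫ t in Set.Ioc (-R) R, ∫ z in U, G z t ≤ ∫ _t in Set.Ioc (-R) R, B :=
        integral_mono h1 (integrable_const _) fun t => h t
    _ = 2 * R * B := by
        rw [setIntegral_const, Measure.real, Real.volume_Ioc, ENNReal.toReal_ofReal (by linarith),
          smul_eq_mul]
        ring

theorem contU {X : Type} [TopologicalSpace X] (e : ℕ) (d : GI → ℂ) (f g : X → ℂ)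
    (hf : Continuous f) (hg : Continuous g) : Continuous fun x => T e d (f x) (g x) := by
  unfold T
  refine continuous_finsetSum _ fun ν _ => continuous_const.mul ((ch_cont ν).comp ?_)
  exact hf.add (hg.div_const _)

theorem bdT {U : Set ℂ} (hb : Bornology.IsBounded U) {K : ℝ}
    (hK : ∀ (S : Finset GI) (c : GI → ℂ) (h : ℂ),
      ∫ z in U, ‖∑ ν ∈ S, c ν * ch ν (z + h)‖ ≤ K * √(∑ ν ∈ S, ‖c ν‖ ^ 2))
    (e : ℕ) (d : GI → ℂ) (w : ℂ) : ∫ z in U, |(T e d z w).re| ≤ K * √(∑ ν ∈ V e, ‖d ν‖ ^ 2) := by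
  obtain ⟨r, hr⟩ := hb.subset_closedBall 0
  have hint : ∀ g : ℂ → ℝ, Continuous g → IntegrableOn g U := fun g hg =>
    (hg.continuousOn.integrableOn_compact (isCompact_closedBall 0 r)).mono_set hr
  have hc : Continuous fun z : ℂ => T e d z w :=
    contU e d (fun z : ℂ => z) (fun _ => w) (by fun_prop) (by fun_prop)
  refine le_trans ?_ (hK (V e) d (w / (√(lamE e) : ℝ)))
  refine integral_mono (hint _ (Complex.continuous_re.comp hc).abs) (hint _ hc.norm) fun z => ?_
  exact Complex.abs_re_le_norm _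

theorem add4 {U : Set ℂ} (f g h k : ℂ → ℝ) (hf : IntegrableOn f U) (hg : IntegrableOn g U)
    (hh : IntegrableOn h U) (hk : IntegrableOn k U) :
    ∫ z in U, (f z + g z + h z + k z) =
      (∫ z in U, f z) + (∫ z in U, g z) + (∫ z in U, h z) + ∫ z in U, k z := by
  have h1 : ∫ z in U, (f z + g z) = (∫ z in U, f z) + ∫ z in U, g z := integral_add hf hg
  have h2 : ∫ z in U, (f z + g z + h z) = (∫ z in U, (f z + g z)) + ∫ z in U, h z :=
    integral_add (hf.add hg) hh
  have h3 : ∫ z in U, (f z + g z + h z + k z) = (∫ z in U, (f z + g z + h z)) + ∫ z in U, k z :=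
    integral_add ((hf.add hg).add hh) hk
  rw [h3, h2, h1]

attribute [local irreducible] T

theorem contV {X : Type} [TopologicalSpace X] (e : ℕ) (d : GI → ℂ) (f g : X → ℂ)
    (hf : Continuous f) (hg : Continuous g) : Continuous fun x => |(T e d (f x) (g x)).re| :=
  (Complex.continuous_re.comp (contU e d f g hf hg)).abs

theorem cont2 (e : ℕ) (d : GI → ℂ) (R : ℝ) :
    Continuous fun p : ℂ × ℝ => ∫ t in (-R)..R, |(T e d p.1 (p.2 + t * I)).re| := by
  have h := contV (X := (ℂ × ℝ) × ℝ) e d (fun q => q.1.1) (fun q => (q.1.2 : ℂ) + (q.2 : ℂ) * I)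
    (by fun_prop) (by fun_prop)
  exact intervalIntegral.continuous_parametric_intervalIntegral_of_continuous' h _ _

end XBm

open XBm in
theorem XB : S_XB := by
  intro U _ hb
  obtain ⟨K, hK0, hK⟩ := l1_bd U hb
  obtain ⟨r, hr⟩ := hb.subset_closedBall 0
  have hint : ∀ g : ℂ → ℝ, Continuous g → IntegrableOn g U := fun g hg =>
    (hg.continuousOn.integrableOn_compact (isCompact_closedBall 0 r)).mono_set hr
  refine ⟨K, hK0, fun e c R he hR => ?_⟩
  obtain ⟨B, hB⟩ : ∃ B : ℝ, B = K * √(∑ ν ∈ V e, ‖c ν‖ ^ 2) := ⟨_, rfl⟩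
  have hsq : ∀ d : GI → ℂ, (∀ ν ∈ V e, ‖d ν‖ ≤ ‖c ν‖) → ∀ w, ∫ z in U, |(T e d z w).re| ≤ B := by
    intro d hd w
    refine (bdT hb hK e d w).trans ?_
    rw [hB]
    refine mul_le_mul_of_nonneg_left (Real.sqrt_le_sqrt ?_) hK0
    exact Finset.sum_le_sum fun ν hν => pow_le_pow_left₀ (norm_nonneg _) (hd ν hν) 2
  have q0 := hsq c fun ν _ => le_rfl
  have q1 := hsq (c1 e c) fun ν hν => c1_norm he c hν
  have q2 := hsq (c2 e c) fun ν hν => c2_norm he c hν
  have q12 := hsq (c2 e (c1 e c)) fun ν hν => (c2_norm he _ hν).trans (c1_norm he c hν)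
  -- the four terms
  have k0 : Continuous fun z : ℂ => |(T e c z 0).re| :=
    contV e c (fun z : ℂ => z) (fun _ => 0) (by fun_prop) (by fun_prop)
  have k2' : Continuous fun p : ℂ × ℝ => |(T e (c2 e c) p.1 (p.2 * I)).re| :=
    contV e (c2 e c) (fun p : ℂ × ℝ => p.1) (fun p => (p.2 : ℂ) * I) (by fun_prop) (by fun_prop)
  have k1' : Continuous fun p : ℂ × ℝ => |(T e (c1 e c) p.1 p.2).re| :=
    contV e (c1 e c) (fun p : ℂ × ℝ => p.1) (fun p => (p.2 : ℂ)) (by fun_prop) (by fun_prop)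
  have k2 : Continuous fun z : ℂ => ∫ t in (-R)..R, |(T e (c2 e c) z (t * I)).re| :=
    intervalIntegral.continuous_parametric_intervalIntegral_of_continuous' k2' _ _
  have k1 : Continuous fun z : ℂ => ∫ s in (-R)..R, |(T e (c1 e c) z s).re| :=
    intervalIntegral.continuous_parametric_intervalIntegral_of_continuous' k1' _ _
  have k12' := cont2 e (c2 e (c1 e c)) R
  have k12 : Continuous fun z : ℂ => ∫ s in (-R)..R, ∫ t in (-R)..R,
      |(T e (c2 e (c1 e c)) z (s + t * I)).re| :=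
    intervalIntegral.continuous_parametric_intervalIntegral_of_continuous' k12' _ _
  have b2 := swapBd hb (fun z t => |(T e (c2 e c) z (t * I)).re|) k2' R B hR fun t => q2 _
  have b1 := swapBd hb (fun z (s : ℝ) => |(T e (c1 e c) z s).re|) k1' R B hR fun s => q1 _
  have b12 := swapBd hb (fun z (s : ℝ) => ∫ t in (-R)..R, |(T e (c2 e (c1 e c)) z (s + t * I)).re|)
    k12' R (2 * R * B) hR fun s => swapBd hb (fun z (t : ℝ) =>
      |(T e (c2 e (c1 e c)) z (s + t * I)).re|)
      (contV e _ (fun p : ℂ × ℝ => p.1) (fun p => (s : ℂ) + (p.2 : ℂ) * I) (by fun_prop)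
        (by fun_prop)) R B hR fun t => q12 _
  refine ⟨((k0.add k2).add k1).add k12, ?_⟩
  have e1 : ∫ z in U, SS e c R z = (∫ z in U, |(T e c z 0).re|) +
      (∫ z in U, ∫ t in (-R)..R, |(T e (c2 e c) z (t * I)).re|) +
      (∫ z in U, ∫ s in (-R)..R, |(T e (c1 e c) z s).re|) +
      ∫ z in U, ∫ s in (-R)..R, ∫ t in (-R)..R, |(T e (c2 e (c1 e c)) z (s + t * I)).re| :=
    add4 _ _ _ _ (hint _ k0) (hint _ k2) (hint _ k1) (hint _ k12)
  rw [e1]
  calc _ ≤ B + 2 * R * B + 2 * R * B + 2 * R * (2 * R * B) :=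
        add_le_add (add_le_add (add_le_add (q0 0) b2) b1) b12
    _ = K * (1 + 2 * R) ^ 2 * √(∑ ν ∈ V e, ‖c ν‖ ^ 2) := by
        rw [hB]
        ring

end Pool.Agent.L0h77.WK
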