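import Pool.Agent.L0h77.WK.Fin
import Pool.Agent.L0h77.WK.PBm
import Pool.Agent.L0h29.WK.CUT
import Pool.Agent.L0h6.WK.CPT
import Pool.Agent.L0h6.WK.MSR
import Pool.Agent.L0h90.WK.Sob
import Pool.Agent.L0h25.WK.TGT
import Pool.Agent.L0h77.WK.XB
import Pool.Agent.L0h6.WK.EXR
import Pool.Agent.L0h77.BW.Exi
import Pool.Agent.L0h77.BW.T_ONB2
import Pool.Agent.L0h77.BW.Haar5

/-! MP_6b977f_mp, project WK: the main theorems with weak convergence -/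

set_option autoImplicit false
set_option maxHeartbeats 400000
open MeasureTheory Filter Topology Complex ProbabilityTheory

namespace Pool.Agent.L0h77.WK

open Pool.Agent.L0h56.BQ
open Pool.Agent.L0h77.BW
open Pool.Agent.N661.BR (MW lin J0 resc IsCutoff IsRandomWave IsQuantumErgodic)

theorem woc : S_WOC := Pool.Agent.L0h4.WK.WOC Pool.Agent.L0h6.WK.t_CPT Pool.Agent.L0h6.WK.t_MSR

theorem tgt : S_TGT :=
  Pool.Agent.L0h25.WK.TGT XB (PBm.PB Pool.Agent.L0h90.WK.SOB) Pool.Agent.L0h29.WK.CUT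

theorem exr : S_EXR := Pool.Agent.L0h6.WK.t_EXR

/-- every quantum ergodic basis -/
theorem main_one' (F : ℕ → Submodule ℝ (ℂ → ℝ)) (hF : F = DirE ∨ F = NeuE)
    (E : ℕ → ℕ) (u : ℕ → ℂ → ℝ) (hB : IsONB F E u) (n : ℕ → ℕ) (hn : FullDensity n)
    (hq : IsQuantumErgodic Sq (fun i => lamE (E (n i))) (fun i => u (n i))) :
    ∃ m : ℕ → ℕ, FullDensity m ∧ Set.range m ⊆ Set.range n ∧
      HasRandomWaveLimit Sq (fun i => lamE (E (m i))) (fun i => u (m i)) ∧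
      WeakLimit Sq (fun i => lamE (E (m i))) (fun i => u (m i)) := by
  obtain ⟨m, hm, hmr, hw⟩ := main_one F hF E u hB n hn hq
  exact ⟨m, hm, hmr, hw, onb_weak woc tgt hF hB hm hw⟩

/-- existence -/
theorem exi' : ∃ (E : ℕ → ℕ) (u : ℕ → ℂ → ℝ), IsONB DirE E u ∧
    (∃ n : ℕ → ℕ, FullDensity n ∧
      IsQuantumErgodic Sq (fun i => lamE (E (n i))) (fun i => u (n i))) ∧
    ∃ m : ℕ → ℕ, FullDensity m ∧
      HasRandomWaveLimit Sq (fun i => lamE (E (m i))) (fun i => u (m i)) ∧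
      WeakLimit Sq (fun i => lamE (E (m i))) (fun i => u (m i)) := by
  obtain ⟨E, u, hB, n, hn, hq⟩ := exi
  have hO := ONB2 E u hB
  obtain ⟨m, hm, -, hw⟩ := main_one' DirE (Or.inl rfl) E u hO n hn hq
  exact ⟨E, u, hO, ⟨n, hn, hq⟩, m, hm, hw⟩

/-- typical energies -/
theorem gen_main' (ε : ℝ) (hε : 0 < ε) : ∃ S : Set ℕ,
    (∀ X : ℕ, (cnt (fun e => e ∉ S) X : ℝ) ≤ ε * X) ∧
    ∀ E : ℕ → ℕ, (∀ n, 0 < E n ∧ E n ∈ S) → Tendsto E atTop atTop →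
      (∀ u : ℕ → ℂ → ℝ, (∀ n, u n ∈ TorE (E n)) → ∀ U : Set ℂ, IsOpen U → U.Nonempty →
        IsQuantumErgodic U (fun n => lamE (E n)) u →
        (∀ Ω : Set ℂ, IsQuantumErgodic Ω (fun n => lamE (E n)) u) ∧
        ∀ Ω : Set ℂ, IsOpen Ω → Bornology.IsBounded Ω → Ω.Nonempty →
          HasRandomWaveLimit Ω (fun n => lamE (E n)) u ∧ WeakLimit Ω (fun n => lamE (E n)) u) ∧
      ((∀ n, ∃ a b : ℕ, 0 < a ∧ 0 < b ∧ a ^ 2 + b ^ 2 = E n) →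
        ∃ u : ℕ → ℂ → ℝ, (∀ n, u n ∈ DirE (E n)) ∧
          (∀ Ω : Set ℂ, IsPoly Ω → ∀ n, ∫ z in Ω, u n z ^ 2 = volume.real Ω) ∧
          ∀ Ω : Set ℂ, IsQuantumErgodic Ω (fun n => lamE (E n)) u) := by
  obtain ⟨S, hS, hG⟩ := gen_main ε hε
  refine ⟨S, hS, fun E hE hEt => ⟨fun u hu U hU hne hq => ?_, (hG E hE hEt).2⟩⟩
  obtain ⟨h1, h2⟩ := (hG E hE hEt).1 u hu U hU hne hq
  exact ⟨h1, fun Ω hop hb hne' => ⟨h2 Ω hop hb hne',
    weak_tor woc tgt (fun n => (hE n).1) hu h2 hop hb hne'⟩⟩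

/-- almost every basis -/
theorem aeb' {Ω : Type} [MeasurableSpace Ω] (P : Measure Ω) [IsProbabilityMeasure P]
    (O : Ω → ℕ × ℕ → ℕ × ℕ → ℝ) (hm : ∀ e, Measurable fun w => block e (O w))
    (hind : iIndepFun (fun e w => block e (O w)) P)
    (hH : ∀ e, IsHaarLaw (P.map fun w => block e (O w))) :
    ∀ᵐ w ∂P, ∀ p : ℕ → ℕ × ℕ, IsEnum p →
      IsONB DirE (fun n => (p n).1 ^ 2 + (p n).2 ^ 2) (fun n => rf (O w) (p n)) ∧
      (∃ n : ℕ → ℕ, FullDensity n ∧ IsQuantumErgodic Sq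
        (fun i => lamE ((p (n i)).1 ^ 2 + (p (n i)).2 ^ 2)) (fun i => rf (O w) (p (n i)))) ∧
      ∃ m : ℕ → ℕ, FullDensity m ∧ HasRandomWaveLimit Sq
        (fun i => lamE ((p (m i)).1 ^ 2 + (p (m i)).2 ^ 2)) (fun i => rf (O w) (p (m i))) ∧
        WeakLimit Sq
        (fun i => lamE ((p (m i)).1 ^ 2 + (p (m i)).2 ^ 2)) (fun i => rf (O w) (p (m i))) := by
  filter_upwards [aeb P O hm hind hH] with w h p hp
  obtain ⟨h1, h2, m, hm', h3⟩ := h p hp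
  exact ⟨h1, h2, m, hm', h3, onb_weak woc tgt (F := DirE) (Or.inl rfl) h1 hm' h3⟩

end Pool.Agent.L0h77.WK
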