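import Pool.Agent.L0h77.WK.FinB

/-! MP_6b977f_mp, project WK: from finite dimensional distributions to weak convergence for
normalised Dirichlet or Neumann functions on grid domains -/

set_option autoImplicit false
set_option maxHeartbeats 400000
open MeasureTheory Filter Topology Complex

namespace Pool.Agent.L0h77.WK

open Pool.Agent.L0h56.BQ
open Pool.Agent.L0h77.BW
open Pool.Agent.N661.BR (MW lin J0 resc IsCutoff IsRandomWave)

theorem weak_grid {E : ℕ → ℕ} (hE : ∀ n, 0 < E n) {u : ℕ → ℂ → ℝ}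
    (hu : (∀ n, u n ∈ DirE (E n)) ∨ ∀ n, u n ∈ NeuE (E n))
    {Ω : Set ℂ} (hΩ : IsPoly Ω) (hne : Ω.Nonempty) (hn : ∀ n, ∫ z in Ω, u n z ^ 2 = volume.real Ω)
    (key : ∀ χ : ℝ → ℝ, IsCutoff χ → ∀ Ω' ⊆ Ω, IsOpen Ω' → Ω'.Nonempty →
      ∀ (K : ℕ) (w : Fin K → ℂ) (t : Fin K → ℝ),
      Tendsto (fun n => (1 / volume.real Ω' : ℝ) * ∫ z in Ω', Complex.exp (I * ((∑ j, t j *
        resc χ Ω (lamE (E n)) (u n) z (w j) : ℝ) : ℂ))) atTop
        (𝓝 (Complex.exp ((-(∑ i, ∑ j, t i * t j * J0 ‖w i - w j‖) / 2 : ℝ))))) :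
    WeakLimit Ω (fun n => lamE (E n)) u := by
  obtain ⟨σ, hσ, b, hb⟩ : ∃ σ : ℝ, σ * σ = 1 ∧ ∃ b : ℕ → GI → ℝ, ∀ n, Rep σ (E n) (b n) (u n) := by
    rcases hu with hu | hu
    · choose b hb using fun n => DirE_rep (hu n)
      exact ⟨-1, by norm_num, b, hb⟩
    · choose b hb using fun n => NeuE_rep (hu n)
      exact ⟨1, by norm_num, b, hb⟩
  have hr : ∀ n, CRep (E n) (fun ν => (b n ν : ℂ)) (u n) := fun n =>
    ⟨fun ν => by rw [(hb n).neg, Complex.conj_ofReal], (hb n).eq⟩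
  have hA : ∀ n, ∑ ν ∈ V (E n), ‖(b n ν : ℂ)‖ ^ 2 ≤ 1 := by
    intro n
    have h3 := norm_one' hσ hb hΩ hne hn n
    have h4 : ∑ ν ∈ V (E n), ‖(b n ν : ℂ)‖ ^ 2 = ∑ ν ∈ V (E n), b n ν ^ 2 :=
      Finset.sum_congr rfl fun ν _ => by rw [Complex.norm_real, Real.norm_eq_abs, sq_abs]
    rw [h4, h3]
  intro χ hχ μ hμ hrw Ω' hsub ho hne' Φ hΦ hC
  have ha : ∀ n z, ⇑(toC (resc χ Ω (lamE (E n)) (u n) z)) = resc χ Ω (lamE (E n)) (u n) z :=
    fun n z => funext fun w => Pool.Agent.L0h4.WK.toC_apply (resc_cont hχ Ω _ (crep_cont (hr n)) z) w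
  refine woc Ω' ho.measurableSet (ho.measure_pos _ hne').ne'
    (hΩ.bd.subset hsub).measure_lt_top.ne
    (fun n z => toC (resc χ Ω (lamE (E n)) (u n) z)) (fun n w => ?_)
    (fun η hη => ?_) μ hμ (fun k w t => ?_) Φ hΦ hC
  · simp only [ha]
    exact resc_meas hχ Ω _ (crep_cont (hr n)) w
  · obtain ⟨M, hM⟩ := tgt χ hχ Ω Ω' hΩ.op hΩ.bd ho.measurableSet hsub hne' 1 η hη
    refine ⟨M, fun n => ?_⟩
    simp only [ha]
    exact hM _ _ _ (hE n) (hr n) (hA n)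
  · simp only [ha]
    have h3 := (randomWave_iff μ).1 hrw k w t
    rw [h3]
    exact key χ hχ Ω' hsub ho hne' k w t

end Pool.Agent.L0h77.WK
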