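import Pool.Agent.L0h77.BW.Gen4
import Pool.Agent.L0h77.WK.Stm

/-! MP_6b977f_mp, project WK: bounds for the rescaled functions on balls, in the mean -/

set_option autoImplicit false
set_option maxHeartbeats 400000
open MeasureTheory Filter Topology Complex

namespace Pool.Agent.L0h77.WK

open Pool.Agent.L0h56.BQ
open Pool.Agent.L0h77.BW
open APXh

noncomputable section

/-- the mean of a translated trigonometric polynomial over a bounded set -/
theorem l1_bd (U : Set ℂ) (hb : Bornology.IsBounded U) : ∃ K : ℝ, 0 ≤ K ∧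
    ∀ (S : Finset GI) (c : GI → ℂ) (h : ℂ),
      ∫ z in U, ‖∑ ν ∈ S, c ν * ch ν (z + h)‖ ≤ K * √(∑ ν ∈ S, ‖c ν‖ ^ 2) := by
  obtain ⟨C, hC0, hC⟩ := per_bound U hb
  obtain ⟨R, hR⟩ := hb.subset_closedBall 0
  have hvol : volume U ≠ ⊤ := hb.measure_lt_top.ne
  have hint : ∀ G : ℂ → ℝ, Continuous G → IntegrableOn G U := fun G hG =>
    (hG.continuousOn.integrableOn_compact (isCompact_closedBall 0 R)).mono_set hR
  refine ⟨√(volume.real U) * √(C * 4), by positivity, fun S c h => ?_⟩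
  have e1 : ∀ z, ∑ ν ∈ S, c ν * ch ν (z + h) = ∑ ν ∈ S, (c ν * ch ν h) * ch ν z := by
    intro z
    refine Finset.sum_congr rfl fun ν _ => ?_
    have : ch ν (z + h) = ch ν z * ch ν h := by
      unfold ch
      rw [← Complex.exp_add]
      congr 1
      simp only [Complex.add_re, Complex.add_im]
      push_cast
      ring
    rw [this]
    ring
  simp_rw [e1]
  have hG := cont_tp S (fun ν => c ν * ch ν h)
  have hp := per_tp S (fun ν => c ν * ch ν h)
  have h1 := cs_int U hvol (fun z => ‖∑ ν ∈ S, (c ν * ch ν h) * ch ν z‖) (hint _ hG.norm)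
    (hint _ (hG.norm.pow 2))
  have h2 := hC (fun z => ‖∑ ν ∈ S, (c ν * ch ν h) * ch ν z‖ ^ 2) (hG.norm.pow 2)
    (fun z => by positivity) (fun z => congrArg (fun x => ‖x‖ ^ 2) (hp.1 z))
    (fun z => congrArg (fun x => ‖x‖ ^ 2) (hp.2 z))
  rw [parseval] at h2
  have h3 : ∑ ν ∈ S, ‖c ν * ch ν h‖ ^ 2 = ∑ ν ∈ S, ‖c ν‖ ^ 2 :=
    Finset.sum_congr rfl fun ν _ => by rw [norm_mul, norm_ch, mul_one]
  rw [h3] at h2
  calc _ ≤ √(volume.real U) * √(∫ z in U, ‖∑ ν ∈ S, (c ν * ch ν h) * ch ν z‖ ^ 2) := h1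
    _ ≤ √(volume.real U) * √(C * (4 * ∑ ν ∈ S, ‖c ν‖ ^ 2)) :=
        mul_le_mul_of_nonneg_left (Real.sqrt_le_sqrt h2) (Real.sqrt_nonneg _)
    _ = √(volume.real U) * √(C * 4) * √(∑ ν ∈ S, ‖c ν‖ ^ 2) := by
        rw [← mul_assoc C, Real.sqrt_mul (by positivity), mul_assoc]

/-- the complex function `w ↦ ∑ c ν ch ν (z + w / √λ)` -/
def T (e : ℕ) (c : GI → ℂ) (z w : ℂ) : ℂ := ∑ ν ∈ V e, c ν * ch ν (z + w / (√(lamE e) : ℝ))

/-- the coefficients of the derivatives -/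
def c1 (e : ℕ) (c : GI → ℂ) (ν : GI) : ℂ := c ν * (I * ((ν.re / √e : ℝ) : ℂ))

/-- the coefficients of the derivatives -/
def c2 (e : ℕ) (c : GI → ℂ) (ν : GI) : ℂ := c ν * (I * ((ν.im / √e : ℝ) : ℂ))

theorem c1_norm {e : ℕ} (he : 0 < e) (c : GI → ℂ) {ν : GI} (hν : ν ∈ V e) : ‖c1 e c ν‖ ≤ ‖c ν‖ := by
  unfold c1
  rw [norm_mul, norm_mul, Complex.norm_I, one_mul, Complex.norm_real, Real.norm_eq_abs]
  refine mul_le_of_le_one_right (norm_nonneg _) ?_
  have he' : (0 : ℝ) < √e := Real.sqrt_pos.2 (by exact_mod_cast he)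
  rw [abs_div, abs_of_pos he', div_le_one he']
  rw [mem_V, norm_eq] at hν
  apply Real.abs_le_sqrt
  have h1 : ν.re ^ 2 ≤ (e : ℤ) := by nlinarith [sq_nonneg ν.im]
  exact_mod_cast h1

theorem c2_norm {e : ℕ} (he : 0 < e) (c : GI → ℂ) {ν : GI} (hν : ν ∈ V e) : ‖c2 e c ν‖ ≤ ‖c ν‖ := by
  unfold c2
  rw [norm_mul, norm_mul, Complex.norm_I, one_mul, Complex.norm_real, Real.norm_eq_abs]
  refine mul_le_of_le_one_right (norm_nonneg _) ?_
  have he' : (0 : ℝ) < √e := Real.sqrt_pos.2 (by exact_mod_cast he)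
  rw [abs_div, abs_of_pos he', div_le_one he']
  rw [mem_V, norm_eq] at hν
  apply Real.abs_le_sqrt
  have h1 : ν.im ^ 2 ≤ (e : ℤ) := by nlinarith [sq_nonneg ν.re]
  exact_mod_cast h1

theorem T_eq (e : ℕ) (c : GI → ℂ) (z w : ℂ) :
    T e c z w = ∑ ν ∈ V e, c ν * ch ν z * Complex.exp (I * (ph e w ν : ℝ)) := by
  unfold T
  refine Finset.sum_congr rfl fun ν _ => ?_
  rw [ch_shift]
  ring

theorem T_deriv (e : ℕ) (c : GI → ℂ) (z w v : ℂ) (t : ℝ) :
    HasDerivAt (fun t : ℝ => T e c z (w + t * v))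
      (v.re * T e (c1 e c) z (w + t * v) + v.im * T e (c2 e c) z (w + t * v)) t := by
  have hph : ∀ (ν : GI) (s : ℝ), ph e (w + s * v) ν = ph e w ν + s * ph e v ν := by
    intro ν s
    unfold ph
    simp only [Complex.add_re, Complex.add_im, Complex.mul_re, Complex.mul_im, Complex.ofReal_re,
      Complex.ofReal_im, zero_mul, sub_zero, add_zero]
    ring
  have h1 : (fun t : ℝ => T e c z (w + t * v)) = fun t : ℝ =>
      ∑ ν ∈ V e, c ν * ch ν z * Complex.exp (I * ((ph e w ν + t * ph e v ν : ℝ) : ℂ)) := by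
    funext s
    rw [T_eq]
    exact Finset.sum_congr rfl fun ν _ => by rw [hph]
  rw [h1]
  have h2 : v.re * T e (c1 e c) z (w + t * v) + v.im * T e (c2 e c) z (w + t * v) =
      ∑ ν ∈ V e, c ν * ch ν z * (Complex.exp (I * ((ph e w ν + t * ph e v ν : ℝ) : ℂ)) *
        (I * ((ph e v ν : ℝ) : ℂ))) := by
    rw [T_eq, T_eq, Finset.mul_sum, Finset.mul_sum, ← Finset.sum_add_distrib]
    refine Finset.sum_congr rfl fun ν _ => ?_
    rw [hph]
    unfold c1 c2
    have h3 : ((ph e v ν : ℝ) : ℂ) = v.re * ((ν.re / √e : ℝ) : ℂ) + v.im * ((ν.im / √e : ℝ) : ℂ) := by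
      unfold ph
      push_cast
      ring
    rw [h3]
    ring
  rw [h2]
  refine HasDerivAt.fun_sum fun ν _ => ?_
  refine HasDerivAt.const_mul _ ?_
  have h4 : HasDerivAt (fun s : ℝ => I * ((ph e w ν + s * ph e v ν : ℝ) : ℂ))
      (I * ((ph e v ν : ℝ) : ℂ)) t := by
    refine HasDerivAt.const_mul _ ?_
    refine HasDerivAt.ofReal_comp ?_
    have h5 := ((hasDerivAt_id t).mul_const (ph e v ν)).const_add (ph e w ν)
    rw [one_mul] at h5
    exact h5
  exact h4.cexp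

theorem T_cont (e : ℕ) (c : GI → ℂ) : Continuous fun p : ℂ × ℂ => T e c p.1 p.2 := by
  unfold T
  refine continuous_finsetSum _ fun ν _ => continuous_const.mul ((ch_cont ν).comp ?_)
  exact continuous_fst.add (continuous_snd.div_const _)

end

end Pool.Agent.L0h77.WK
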