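import Pool.Agent.L0h77.WK.Par

/-! MP_6b977f_mp, project WK: statements, part 2 -/

set_option autoImplicit false
set_option maxHeartbeats 400000
open MeasureTheory Filter Topology Complex

namespace Pool.Agent.L0h77.WK

open Pool.Agent.L0h56.BQ
open Pool.Agent.L0h77.BW
open Pool.Agent.N661.BR (resc IsCutoff)

noncomputable section

/-- the right side of the Sobolev type bound `S_SOB` for `w ↦ Re T e c z w` -/
def SS (e : ℕ) (c : GI → ℂ) (R : ℝ) (z : ℂ) : ℝ :=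
  |(T e c z 0).re| + (∫ t in (-R)..R, |(T e (c2 e c) z (t * I)).re|) +
    (∫ s in (-R)..R, |(T e (c1 e c) z s).re|) +
    ∫ s in (-R)..R, ∫ t in (-R)..R, |(T e (c2 e (c1 e c)) z (s + t * I)).re|

/-- XB (Fubini and `l1_bd`, `c1_norm`, `c2_norm`, `T_cont`, all in `WK/Par.lean`): the mean of `SS`
over a bounded set -/
def S_XB : Prop := ∀ U : Set ℂ, MeasurableSet U → Bornology.IsBounded U → ∃ K : ℝ, 0 ≤ K ∧
  ∀ (e : ℕ) (c : GI → ℂ) (R : ℝ), 0 < e → 0 ≤ R → Continuous (SS e c R) ∧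
    ∫ z in U, SS e c R z ≤ K * (1 + 2 * R) ^ 2 * √(∑ ν ∈ V e, ‖c ν‖ ^ 2)

/-- PB (from `S_SOB`, `T_deriv`): bounds for the values and the Lipschitz constant on balls -/
def S_PB : Prop := ∀ (e : ℕ) (c : GI → ℂ) (R : ℝ) (z w w' : ℂ), 0 ≤ R → ‖w‖ ≤ R → ‖w'‖ ≤ R →
  |(T e c z w).re| ≤ SS e c R z ∧
  |(T e c z w).re - (T e c z w').re| ≤ (SS e (c1 e c) R z + SS e (c2 e c) R z) * ‖w - w'‖

/-- CUT: a cut-off function is Lipschitz on `[0, ∞)` (it is smooth on `[0, 1]` and vanishes from `1`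
on) -/
def S_CUT : Prop := ∀ χ : ℝ → ℝ, IsCutoff χ → ∃ L : ℝ, 0 ≤ L ∧
  ∀ a b : ℝ, 0 ≤ a → 0 ≤ b → |χ a - χ b| ≤ L * |a - b|

/-- TGT (`theorem TGT (h1 : S_XB) (h2 : S_PB) (h3 : S_CUT) : S_TGT`): for `δ = infDist z (frontier Ω)`
bounded below by `δ₀` the function `w ↦ resc χ Ω (lamE e) u z w` is bounded by `X` and has Lipschitz
constant at most `X (1 + L / (π δ₀))` on the ball of radius `R`, where
`X = SS e c R z + SS e (c1 e c) R z + SS e (c2 e c) R z`. Markov's inequality for `X` for each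
`R = 0, 1, ...`, with bound `η / 2 ^ (R + 2)`; the set of `z ∈ U` with `δ < δ₀` has measure at most
`η / 2` for small `δ₀` (its points are in the open set `Ω`, the frontier is closed and not empty). -/
def S_TGT : Prop := ∀ (χ : ℝ → ℝ), IsCutoff χ → ∀ (Ω U : Set ℂ), IsOpen Ω → Bornology.IsBounded Ω →
  MeasurableSet U → U ⊆ Ω → U.Nonempty → ∀ (A : ℝ) (η : ℝ), 0 < η → ∃ M : ℕ → ℝ,
  ∀ (e : ℕ) (c : GI → ℂ) (u : ℂ → ℝ), 0 < e → CRep e c u → ∑ ν ∈ V e, ‖c ν‖ ^ 2 ≤ A →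
    volume {z ∈ U | ¬ LipBd M (fun w => resc χ Ω (lamE e) u z w)} ≤ ENNReal.ofReal η

end

end Pool.Agent.L0h77.WK
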